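import Pool.Agent.R14.TII.CritDefs

/-!
Structure of the TF-morphisms of a nontrivially unstable circulant of Type II of order `2 m`,
`m` odd.
-/

namespace Pool.Agent.Results.MP_810fd7_co.Structure

open Pool.Agent.R14.TII

theorem result (m : ℕ) (hm : Odd m)
    (S : Set (ZMod (2 * m))) (hS : ∀ x ∈ S, -x ∈ S) (h0 : (0 : ZMod (2 * m)) ∉ S)
    (hnu : NontriviallyUnstable (Cay m S hS h0)) (hII : TypeII m (Cay m S hS h0))
    (α β : Equiv.Perm (ZMod (2 * m))) (hTF : IsTF (Cay m S hS h0) α β) :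
    (∀ x, α (x + m) = α x + m) ∧
    (∀ x y, x - y ∈ LinkSub m S ↔ α x - α y ∈ LinkSub m S) ∧
    ∃ D : Set (ZMod (2 * m)), (∀ x, ∀ y ∈ LinkSub m S, (x ∈ D ↔ x + y ∈ D)) ∧
      (∀ x ∈ D, β x = α x + m) ∧ (∀ x, x ∉ D → β x = α x) := by
  have : NeZero (2 * m) := ⟨by obtain ⟨k, hk⟩ := hm; omega⟩
  have h := hyp_of hm hS h0 hnu hII
  obtain ⟨α₀, β₀, h1, hne⟩ := ex_of hS h0 hnu
  have g : h.Good := h.good h1 hne
  have hT : TF S α β := hTF
  have hT' : TF S β α := h.TFsymm hT
  rw [LinkSub_eq h]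
  refine ⟨g.commt hT, ?_, {a | β⁻¹ (α a) = a + (m : ZMod (2 * m))}, ?_, ?_, ?_⟩
  · intro x y
    constructor
    · intro hxy
      have := g.cosU hT hxy y
      rwa [add_sub_cancel] at this
    · intro hxy
      have := g.cosU hT.inv hxy (α y)
      rwa [add_sub_cancel, inv_app, inv_app] at this
  · intro x y hy
    have := g.epsU hT hy x
    unfold eps at this
    show β⁻¹ (α x) = x + m ↔ β⁻¹ (α (x + y)) = x + y + m
    by_cases c1 : β⁻¹ (α x) = x + m
    · by_cases c2 : β⁻¹ (α (x + y)) = x + y + m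
      · exact iff_of_true c1 c2
      · rw [if_pos c1, if_neg c2] at this
        exact absurd this (by norm_num)
    · by_cases c2 : β⁻¹ (α (x + y)) = x + y + m
      · rw [if_neg c1, if_pos c2] at this
        exact absurd this (by norm_num)
      · exact iff_of_false c1 c2
  · intro x hx
    have hx' : β⁻¹ (α x) = x + m := hx
    have h2 : α x = β (x + m) := by rw [← hx', app_inv]
    rw [h2, g.commt hT', h.addtt]
  · intro x hx
    have h2 := (g.kval hT x).resolve_right hx
    calc β x = β (β⁻¹ (α x)) := by rw [h2]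
      _ = α x := app_inv _ _

end Pool.Agent.Results.MP_810fd7_co.Structure
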