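import Pool.Agent.R996.Ty.T1
import Pool.Agent.R996.Ty.Fin
import Pool.Agent.R996.Ty.Final

/-!
# Unstable circulants of Type II

For every odd `m`, every nontrivially unstable circulant `Cay(ℤ/2m, S)` of Type II is isomorphic to
`Cay(ℤ/2m, S + m)`.
-/

namespace Pool.Agent.Results.MP_810fd7_co.TypeIIAllOdd

/-- The circulant graph `Cay(ℤ/n, S)` for an inverse-closed set `S` with `0 ∉ S`. -/
def Cay {n : ℕ} (S : Set (ZMod n)) (hS : ∀ a ∈ S, -a ∈ S) (h0 : (0 : ZMod n) ∉ S) :
    SimpleGraph (ZMod n) where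
  Adj x y := y - x ∈ S
  symm := ⟨fun x y h => by
    have h1 := hS _ h
    rwa [neg_sub] at h1⟩
  loopless := ⟨fun x h => h0 (by rwa [sub_self] at h)⟩

/-- The direct product `Γ × K₂`. -/
def TimesK2 {V : Type} (Γ : SimpleGraph V) : SimpleGraph (V × Bool) where
  Adj x y := Γ.Adj x.1 y.1 ∧ x.2 ≠ y.2
  symm := ⟨fun _ _ h => ⟨h.1.symm, h.2.symm⟩⟩
  loopless := ⟨fun _ h => h.2 rfl⟩

/-- A graph is stable if `Aut(Γ × K₂) ≅ Aut(Γ) × ℤ/2`. -/
def Stable {V : Type} (Γ : SimpleGraph V) : Prop :=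
  Nonempty ((TimesK2 Γ ≃g TimesK2 Γ) ≃* ((Γ ≃g Γ) × Multiplicative (ZMod 2)))

/-- Nontrivially unstable graphs: unstable, connected, not bipartite, and distinct vertices have
distinct neighbourhoods. -/
structure NontriviallyUnstable {V : Type} (Γ : SimpleGraph V) : Prop where
  unstable : ¬ Stable Γ
  connected : Γ.Connected
  nonbipartite : ¬ Γ.Colorable 2
  twinfree : ∀ x y, Γ.neighborSet x = Γ.neighborSet y → x = y

/-- Two-fold automorphisms (TF-morphisms). -/
def IsTF {V : Type} (Γ : SimpleGraph V) (α β : Equiv.Perm V) : Prop :=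
  ∀ u v, Γ.Adj u v ↔ Γ.Adj (α u) (β v)

/-- The subgroup `2 ℤ/2m` of the even residues. -/
def evens (m : ℕ) : Set (ZMod (2 * m)) := {x | ∃ y, x = 2 * y}

/-- Unstable circulants of Type II: for every nontrivial TF-morphism `(α, β)` at least one of
`α`, `β` does not map the even residues onto themselves. -/
def TypeII {m : ℕ} (Γ : SimpleGraph (ZMod (2 * m))) : Prop :=
  ¬ Stable Γ ∧ ∀ α β : Equiv.Perm (ZMod (2 * m)), IsTF Γ α β → α ≠ β →
    ¬ (α '' evens m = evens m ∧ β '' evens m = evens m)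

/-- `Cay(ℤ/2m, S)` is isomorphic to `Cay(ℤ/2m, S + m)` (the latter may have loops). -/
def IsoShift (m : ℕ) (S : Set (ZMod (2 * m))) : Prop :=
  ∃ ψ : Equiv.Perm (ZMod (2 * m)), ∀ u v,
    v - u ∈ S ↔ ψ v - ψ u ∈ (fun s => s + (m : ZMod (2 * m))) '' S

/-- Every nontrivially unstable circulant of Type II of order twice an odd number is isomorphic
to its shift. -/
theorem result (m : ℕ) (hm : Odd m) (S : Set (ZMod (2 * m))) (hS : ∀ a ∈ S, -a ∈ S)
    (h0 : (0 : ZMod (2 * m)) ∉ S) (hnu : NontriviallyUnstable (Cay S hS h0))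
    (hII : TypeII (Cay S hS h0)) : IsoShift m S := by
  have : NeZero m := ⟨hm.pos.ne'⟩
  have hconn : ∀ x y, Relation.ReflTransGen (R996.Ty.Circ S) x y := by
    intro x y
    exact (SimpleGraph.reachable_iff_reflTransGen x y).1 (hnu.connected.preconnected x y)
  have hnb : ¬ ∃ c : ZMod (2 * m) → Bool, ∀ x y, R996.Ty.Circ S x y → c x ≠ c y := by
    rintro ⟨c, hc⟩
    apply hnu.nonbipartite
    have h1 : (Cay S hS h0).Coloring Bool := SimpleGraph.Coloring.mk c fun {x y} h => hc x y h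
    have h2 := h1.colorable
    rwa [Fintype.card_bool] at h2
  have htw : ∀ x y, (∀ z, R996.Ty.Circ S x z ↔ R996.Ty.Circ S y z) → x = y := by
    intro x y h
    exact hnu.twinfree x y (Set.ext h)
  have h2 : R996.Ty.TypeII S := by
    intro α β h hne
    have h3 := hII.2 α β h hne
    by_cases h4 : α '' evens m = evens m
    · right
      exact fun h5 => h3 ⟨h4, h5⟩
    · left
      exact h4
  exact R996.Ty.fin_odd hm (R996.Ty.goodSw_of_good (R996.Ty.good_odd m hm))
    (R996.Ty.goodT (by rwa [ZMod.card])) S hS ⟨hnu.unstable, hconn, hnb, htw⟩ h2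

end Pool.Agent.Results.MP_810fd7_co.TypeIIAllOdd
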